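import Pool.Agent.H92Cone.Names

/-!
The cone conjecture descends to finite quotients.

Upstairs: `Fin n → ℝ` is the real Neron-Severi space of `X` with its lattice of integral vectors,
`Nef` the nef cone, `Eff` the effective cone (not closed up), `G` the image of the automorphism
group of the pair, and the translates of the cone spanned by the finite set `S` of rational
vectors are the nef effective cone, i.e. Q1 holds for `X`.  `H` is a finite group acting on the
lattice and preserving the nef cone.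

Downstairs: `Fin m → ℝ` is the real Neron-Severi space of `Y = X / H`, embedded by the integral
matrix `P` (pullback) onto the subspace fixed by `H`; a class downstairs is nef (effective) iff
its pullback is.  `C` is the image of the group of automorphisms of the pair commuting with `H`,
and `G'` is the image of the automorphism group of the quotient pair: every element of `C`
descends.
-/

namespace Pool.Agent.Results.MP_9f99c5_ag.FiniteQuotients

open Pool.Agent.H93Cone Pool.Agent.H92Cone

theorem result {n m : ℕ}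
    (Nef Eff : PointedCone ℝ (Fin n → ℝ))
    (hNef : IsClosed (Nef : Set (Fin n → ℝ)))
    (hample : (interior (Nef : Set (Fin n → ℝ))).Nonempty)
    (hsal : ∀ x, x ∈ Nef → -x ∈ Nef → x = 0)
    (hampleEff : interior (Nef : Set (Fin n → ℝ)) ⊆ (Eff : Set (Fin n → ℝ)))
    (G : Subgroup (GL (Fin n) ℤ))
    (hGNef : Preserves G Nef) (hGEff : Preserves G Eff)
    (S : Finset (Fin n → ℚ))
    (hcover : Covers G S ((Nef : Set (Fin n → ℝ)) ∩ Eff))
    (H : Subgroup (GL (Fin n) ℤ)) [Finite H] (hHNef : Preserves H Nef)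
    (P : Matrix (Fin n) (Fin m) ℤ) (hP : Function.Injective (pull P))
    (hPH : Set.range (pull P) = fixedSpace H)
    (C : Subgroup (GL (Fin n) ℤ)) (hC : ∀ g ∈ C, ∀ h ∈ H, g * h = h * g)
    (hCfin : C.relIndex (G ⊓ Subgroup.centralizer (H : Set (GL (Fin n) ℤ))) ≠ 0)
    (G' : Subgroup (GL (Fin m) ℤ))
    (hG'Nef : Preserves G' (pull P ⁻¹' Nef)) (hG'Eff : Preserves G' (pull P ⁻¹' Eff))
    (hlift : ∀ g ∈ C, ∃ g' ∈ G', ∀ z, act g.val (pull P z) = pull P (act g'.val z)) :
    ∃ S' : Finset (Fin m → ℚ),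
      Covers G' S' (pull P ⁻¹' ((Nef : Set (Fin n → ℝ)) ∩ Eff)) ∧ Exact G' S' := by
  obtain ⟨S', h1, h2, h3⟩ := quotient_main Nef Eff hNef hample hampleEff hsal G hGNef hGEff S
    (fun x hx => by
      have h : x ∈ (Nef : Set (Fin n → ℝ)) ∩ Eff := by
        rw [hcover]
        exact Set.mem_iUnion₂.2 ⟨1, G.one_mem, x, hx, by simp⟩
      exact h) (fun x hx1 hx2 => by
      have h : x ∈ (Nef : Set (Fin n → ℝ)) ∩ Eff := ⟨hx1, hx2⟩
      rw [hcover] at h
      obtain ⟨g, hg, y, hy, hyx⟩ := Set.mem_iUnion₂.1 h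
      exact ⟨g, hg, y, hy, hyx⟩) H hHNef P hP (fun x => by
      have h : x ∈ fixedSpace H ↔ x ∈ Set.range (pull P) := by rw [hPH]
      exact h) C hC hCfin G' hG'Nef hG'Eff hlift
  refine ⟨S', ?_, fun g hg hg1 => (h3 g hg hg1).inter_eq⟩
  apply Set.Subset.antisymm
  · rintro z ⟨hz1, hz2⟩
    obtain ⟨g, hg, y, hy, hyz⟩ := h2 z hz1 hz2
    exact Set.mem_iUnion₂.2 ⟨g, hg, y, hy, hyz⟩
  · intro z hz
    obtain ⟨g, hg, y, hy, rfl⟩ := Set.mem_iUnion₂.1 hz
    exact ⟨hG'Nef g hg y (h1 y hy).1, hG'Eff g hg y (h1 y hy).2⟩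

end Pool.Agent.Results.MP_9f99c5_ag.FiniteQuotients
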