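import Pool.Agent.KTriv.Main

/-!
# The cone conjecture for varieties with trivial canonical class without Calabi-Yau factors

Let `X` be a smooth projective variety with `K_X = 0` numerically. By the theorem of Beauville and
Bogomolov `X = W / H`, where `H` is a finite group acting freely on a product `W` of an abelian
variety, of projective hyperkähler manifolds `Y_j` and of strict Calabi-Yau manifolds. The theorem
below applies if there are no strict Calabi-Yau factors (or if these satisfy the cone conjecture)
and `b_2(Y_j) ≥ 5`; the cone conjecture for abelian varieties is due to Prendergast-Smith. If `H` is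
any finite group of automorphisms of `W` the theorem gives the cone conjecture for the klt
Calabi-Yau pair `(X, Δ)` for which `K_W` is the pull-back of `K_X + Δ`.

Examples. `X = Y` a hyperkähler manifold (`r = 1`, `W = X = Y`, `H` trivial, `E` and `P` the identity
matrices). Enriques manifolds `X = Y / H` (Oguiso-Schröer, Boissière-Nieper-Wißkirchen-Sarti), for
instance free quotients of order 3 of generalised Kummer varieties of dimension 4 and quotients of
`S^[n]`, `n` odd, by the involution induced by an Enriques involution of the K3 surface `S`. `X =
(E × Y) / H`, `E` an elliptic curve, `H` cyclic, acting on `E` by translations, on a hyperkähler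
manifold `Y` by arbitrary automorphisms.
-/

set_option autoImplicit false

namespace Pool.Agent.Results.MP_9f99c5_ag.KTrivialManifolds

open Pool.Agent.KTriv

/-- `Y_1, ..., Y_r` are projective varieties, each of which is hyperkähler with `b_2 ≥ 5` or
satisfies the cone conjecture (for instance an abelian variety), `W = Y_1 × ... × Y_r`, and
`X = W / H` for a finite group `H` of automorphisms of `W`. Then `X` satisfies the cone
conjecture. -/
theorem result {r : ℕ} (Y : Fin r → Variety) (W X : Variety)
    (E : ∀ j, Matrix (Fin W.n) (Fin (Y j).n) ℤ) (P : Matrix (Fin W.n) (Fin X.n) ℤ)
    (H : Subgroup W.Aut) [Finite H] (hW : W.Standard) (hX : X.Standard)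
    (hE : W.IsProduct Y E) (hP : W.IsQuotient H X P)
    (hY : ∀ j, (Y j).IsHyperkahler ∨ (Y j).ConeConjecture) : X.ConeConjecture :=
  Variety.coneConjecture_of_quotient hW hX hE hP hY

end Pool.Agent.Results.MP_9f99c5_ag.KTrivialManifolds
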