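import Pool.Agent.SYM.V3P.SymV
import Pool.Agent.SYM.V3P.Joint

/-!
# The cone conjecture for klt varieties with trivial canonical class without Calabi-Yau factors

Let `X` be a projective variety with klt singularities and `K_X = 0` numerically. By the
Beauville-Bogomolov decomposition theorem for singular varieties (Greb-Kebekus-Peternell, Druel,
Höring-Peternell) `X = W / H`, where `H` is a finite group acting on a product `W` of an abelian
variety, of projective primitive symplectic varieties `Y_j` (irreducible holomorphic symplectic
varieties) and of strict Calabi-Yau varieties, freely in codimension one. The theorem below applies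
if there are no strict Calabi-Yau factors (or if these satisfy the cone conjecture); the cone
conjecture for abelian varieties is due to Prendergast-Smith. If `H` is any finite group of
automorphisms of `W` the theorem gives the cone conjecture for the klt Calabi-Yau pair `(X, Δ)` for
which `K_W` is the pull-back of `K_X + Δ`.

Examples. `X = Y` a primitive symplectic variety, for instance a compact hyperkähler manifold of any
deformation type (`r = 1`, `W = X = Y`, `H` trivial, `E` and `P` the identity). Enriques manifolds
`X = Y / H`. `X = (A × Y) / H`, `A` an abelian variety.
-/

set_option autoImplicit false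

namespace Pool.Agent.Results.MP_9f99c5_ag.KTrivialVarieties

open Pool.Agent.KTriv Pool.Agent.SYM.V3P

/-- `Y_1, ..., Y_r` are projective varieties, each of which is primitive symplectic or satisfies the
cone conjecture (for instance an abelian variety), `W = Y_1 × ... × Y_r`, and `X = W / H` for a finite
group `H` of automorphisms of `W`. Then `X` satisfies the cone conjecture. -/
theorem result {r : ℕ} (Y : Fin r → Var) (W X : Var) (E : ∀ j, Sp (Y j).n → Sp W.n)
    (H : W.Aut → Prop) (P : Sp X.n → Sp W.n) (hY : ∀ j, (Y j).Std) (hW : W.Std) (hX : X.Std)
    (hE : W.IsProduct Y E) (hP : W.IsQuotient H X P)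
    (hC : ∀ j, IsSymplectic (Y j) ∨ (Y j).Cone) : X.Cone :=
  cone_of_quotient hY hW hX hE hP hC

end Pool.Agent.Results.MP_9f99c5_ag.KTrivialVarieties
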