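import Pool.Agent.H68Cone.Main

/-!
The cone conjecture for klt Calabi-Yau pairs with a free abelian group of automorphisms of the
largest possible rank `n - 1 - s`, where `s` is the dimension of the space
spanned by the classes of the components of the boundary.

`Fin n → ℝ` is the real Neron-Severi space with its lattice of integral vectors, `Nef` the nef
cone, `Eff` the cone spanned by the classes of effective divisors (not closed up), `G` the
image of the automorphism group of the pair, `Δ j` are the classes of the components of the boundary,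
and the dual cone of `Nef` is the closed cone of curves.
-/

namespace Pool.Agent.Results.MP_9f99c5_ag.MaximalRankPairs

open Module Topology Pool.Agent.H93Cone

variable {n k : ℕ}

/-- The convex cone spanned by finitely many rational vectors. -/
def cone (S : Finset (Fin n → ℚ)) : Set (Fin n → ℝ) :=
  (PointedCone.hull ℝ (ratVec '' (S : Set (Fin n → ℚ))) : PointedCone ℝ (Fin n → ℝ))

/-- `A` contains no line through the origin. -/
def Salient (A : Set (Fin n → ℝ)) : Prop := ∀ x ∈ A, -x ∈ A → x = 0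

/-- The general properties of the nef cone and of the effective cone: `Nef` is a closed convex cone
with nonempty interior, `Eff` is the convex cone spanned by a set of integral vectors, the interior of
`Nef` is contained in `Eff` and the closure of `Eff` contains no line. -/
structure NefEff (Nef Eff : PointedCone ℝ (Fin n → ℝ)) : Prop where
  closed : IsClosed (Nef : Set (Fin n → ℝ))
  ample : (interior (Nef : Set (Fin n → ℝ))).Nonempty
  spanned : ∃ D : Set (Fin n → ℤ), Eff = PointedCone.hull ℝ (intVec '' D)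
  ample_effective : interior (Nef : Set (Fin n → ℝ)) ⊆ (Eff : Set (Fin n → ℝ))
  salient : Salient (closure (Eff : Set (Fin n → ℝ)))

/-- Every element of `G` maps `A` into itself. -/
def Preserves (G : Subgroup (GL (Fin n) ℤ)) (A : PointedCone ℝ (Fin n → ℝ)) : Prop :=
  ∀ g ∈ G, ∀ x ∈ A, act g.val x ∈ A

/-- Every element of `G` maps each `Δ j` to some `Δ j'`. -/
def Permutes (G : Subgroup (GL (Fin n) ℤ)) (Δ : Fin k → Fin n → ℚ) : Prop :=
  ∀ g ∈ G, ∀ j, ∃ j', act g.val (ratVec (Δ j)) = ratVec (Δ j')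

/-- The dual cone of `A`. -/
def dual (A : Set (Fin n → ℝ)) : Set (Fin n → ℝ) := {ξ | ∀ x ∈ A, 0 ≤ ξ ⬝ᵥ x}

/-- The vector `ξ` of the convex cone `A` spans an extremal ray of `A`. -/
def IsExtremalRay (A : Set (Fin n → ℝ)) (ξ : Fin n → ℝ) : Prop :=
  ξ ∈ A ∧ ξ ≠ 0 ∧ ∀ a ∈ A, ∀ b ∈ A, a + b = ξ → ∃ t : ℝ, 0 ≤ t ∧ a = t • ξ

/-- There is a constant `B` such that each extremal ray `ξ` of the dual cone of `Nef` with
`ξ ⬝ Δ j ≠ 0` contains an integral vector `c` with `|c ⬝ Δ j| ≤ B`. -/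
def BoundedRays (Nef : PointedCone ℝ (Fin n → ℝ)) (Δ : Fin k → Fin n → ℚ) : Prop :=
  ∃ B : ℝ, ∀ ξ, IsExtremalRay (dual (Nef : Set (Fin n → ℝ))) ξ → ∀ j, ξ ⬝ᵥ ratVec (Δ j) ≠ 0 →
    ∃ (c : Fin n → ℤ) (t : ℝ), 0 < t ∧ intVec c = t • ξ ∧ |intVec c ⬝ᵥ ratVec (Δ j)| ≤ B

/-- Each rational vector of `Nef` which lies in the interior of `Eff` after adding a nonnegative
multiple of the sum of all `Δ j` belongs to `Eff`. -/
def BigIsEffective (Nef Eff : PointedCone ℝ (Fin n → ℝ)) (Δ : Fin k → Fin n → ℚ) : Prop :=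
  ∀ v : Fin n → ℚ, ratVec v ∈ Nef → ∀ t : ℝ, 0 ≤ t →
    ratVec v + t • ∑ j, ratVec (Δ j) ∈ interior (Eff : Set (Fin n → ℝ)) → ratVec v ∈ Eff

/-- The dimension `s` of the space spanned by the `Δ j`. -/
noncomputable def spanDim (Δ : Fin k → Fin n → ℚ) : ℕ :=
  finrank ℚ (Submodule.span ℚ (Set.range Δ))

/-- If `s ≥ 2` then the rational vectors of `Nef` in the span of the `Δ j` belong to `Eff`. -/
def SpanIsEffective (Nef Eff : PointedCone ℝ (Fin n → ℝ)) (Δ : Fin k → Fin n → ℚ) : Prop :=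
  2 ≤ spanDim Δ → ∀ v ∈ Submodule.span ℚ (Set.range Δ), ratVec v ∈ Nef → ratVec v ∈ Eff

/-- `G` acts on `A` with a rational polyhedral fundamental domain contained in `A`. -/
def HasDomain (G : Subgroup (GL (Fin n) ℤ)) (A : Set (Fin n → ℝ)) : Prop :=
  ∃ S : Finset (Fin n → ℚ), cone S ⊆ A ∧ A = ⋃ g ∈ G, act g.val '' cone S ∧
    ∀ g ∈ G, g ≠ 1 → interior (cone S) ∩ interior (act g.val '' cone S) = ∅

theorem result {n k : ℕ} (Nef Eff : PointedCone ℝ (Fin n → ℝ)) (hcones : NefEff Nef Eff)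
    (G : Subgroup (GL (Fin n) ℤ)) (hGNef : Preserves G Nef) (hGEff : Preserves G Eff)
    (Δ : Fin k → Fin n → ℚ) (hΔ : ∀ j, ratVec (Δ j) ∈ Eff)
    (hGΔ : Permutes G Δ) (hrays : BoundedRays Nef Δ) (hbig : BigIsEffective Nef Eff Δ)
    (hspan : SpanIsEffective Nef Eff Δ)
    (φ : Multiplicative (Fin (n - 1 - spanDim Δ) → ℤ) →* G) (hφ : Function.Injective φ) :
    HasDomain G ((Nef : Set (Fin n → ℝ)) ∩ (Eff : Set (Fin n → ℝ))) := by
  obtain ⟨hNef, hample, ⟨D, hEff⟩, hampleEff, hsal⟩ := hcones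
  exact Pool.Agent.H68Cone.main Nef Eff D hNef hample hEff hampleEff hsal G hGNef hGEff Δ hΔ hGΔ
    hrays hbig hspan φ hφ

end Pool.Agent.Results.MP_9f99c5_ag.MaximalRankPairs
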